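import Mathlib
import Pool.Agent.E8helper42.AZ.Stm4

/-!
# Project AZ, `ζ(2)`: the companion system of order three, commuting derivations
-/

set_option autoImplicit false

namespace Pool.Agent.E8helper52.AZ3

open Polynomial Pool.Agent.E8helper42.AZ

lemma solv3_eq (d : Dat) (t s : ℂ) (u : RR) (h : Lop3 d t u = s • d.z) :
    (fun i => d.th (solv3 d u i)) = ((AF3 t).map d.emb).mulVec (solv3 d u) + fun i => d.emb (gF3 s i) := by
  have h1 : d.th (d.th (d.th u)) = t ^ 2 • (d.z * (d.z * (d.th u + u))) -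
      t • (d.z * ((11 : ℂ) • d.th (d.th u) + (11 : ℂ) • d.th u + (3 : ℂ) • u)) + s • d.z := by
    rw [← h, Lop3]; ring
  funext i
  fin_cases i
  · simp [solv3, AF3, AP3, gF3, Matrix.mulVec, dotProduct, Fin.sum_univ_three, Matrix.of_apply, Matrix.map_apply]
  · simp [solv3, AF3, AP3, gF3, Matrix.mulVec, dotProduct, Fin.sum_univ_three, Matrix.of_apply, Matrix.map_apply]
  · simp only [solv3, AF3, AP3, gF3, Matrix.mulVec, dotProduct, Fin.sum_univ_three, Matrix.of_apply, Matrix.map_apply,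
      Pi.add_apply]
    simp only [Fin.reduceFinMk, Matrix.cons_val, d.emb_poly]
    rw [h1]
    simp only [map_sub, map_add, map_neg, map_mul, aeval_C, aeval_X, map_pow, smul_def', map_ofNat]
    ring

lemma cw_Lop3 (d : Dat) (e : ℂ) (χ : Gam →+ ℂ) (h : χ d.g₀ = 0) (t : ℂ) (a : RR) :
    Lop3 d t (cw e χ a) = cw e χ (Lop3 d t a) := by
  simp only [Lop3, cw_comm d e χ h, map_add, map_sub, Derivation.map_smul, cw_z_mul d e χ h]

lemma cw_solv3 (d : Dat) (e : ℂ) (χ : Gam →+ ℂ) (h : χ d.g₀ = 0) (a : RR) (i : Fin 3) :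
    cw e χ (solv3 d a i) = solv3 d (cw e χ a) i := by
  fin_cases i
  · rfl
  · exact (cw_comm d e χ h a).symm
  · show cw e χ (d.th (d.th a)) = d.th (d.th (cw e χ a))
    simp only [cw_comm d e χ h]

lemma solv3_smul (d : Dat) (c : ℂ) (u : RR) (i : Fin 3) : solv3 d (c • u) i = c • solv3 d u i := by
  fin_cases i
  · rfl
  · exact Derivation.map_smul d.th c u
  · show d.th (d.th (c • u)) = c • d.th (d.th u)
    simp only [Derivation.map_smul]

lemma solv3_zero (d : Dat) (i : Fin 3) : solv3 d 0 i = 0 := by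
  have := solv3_smul d 0 0 i
  rwa [zero_smul', zero_smul'] at this

lemma Phi3_apply (d : Dat) (f : Fin 3 → RR) (i j : Fin 3) : Phi3 d f i j = solv3 d (f j) i := rfl

lemma Phi3_eq (d : Dat) (t : ℂ) (f : Fin 3 → RR) (h : ∀ j, Lop3 d t (f j) = 0) :
    (Phi3 d f).map (thD d) = (AF3 t).map (algebraMap FF (RD d)) * Phi3 d f := by
  ext i j
  have h1 := congrFun (solv3_eq d t 0 (f j) (by rw [h j, zero_smul'])) i
  have h2 : gF3 0 = 0 := by
    funext k
    fin_cases k <;> simp [gF3]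
  rw [h2] at h1
  simp only [Pi.add_apply, Pi.zero_apply, map_zero, add_zero] at h1
  rw [Matrix.map_apply, Matrix.mul_apply]
  exact h1

end Pool.Agent.E8helper52.AZ3
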