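import Mathlib
import Pool.Agent.E8helper42.AZ.Sol
import Pool.Agent.E8helper52.AZ3.Gen3

/-!
# Project AZ, `ζ(2)`: the exponential solutions at infinity
-/

set_option autoImplicit false

namespace Pool.Agent.E8helper52.AZ3

open Polynomial Pool.Agent.E8helper42.AZ

/-- the operator on sequences, at infinity -/
noncomputable def LI3 (l t : ℂ) (b : ℤ → ℂ[X]) (k : ℤ) : ℂ[X] :=
  TI l (TI l (TI l b)) k + C t * (C 11 * TI l (TI l b) (k + 2) + C 11 * TI l b (k + 2) + C 3 * b (k + 2)) -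
    C (t ^ 2) * (TI l b (k + 2 + 2) + b (k + 2 + 2))

lemma LI3_coeff {γ : ℝ} {m : ℤ} {b : ℤ → ℂ[X]} (hb : Bdd m b) (t : ℂ) (g : Gam) :
    (Lop3 dI t (el γ m b hb)).coeff g = if p1 g = γ then LI3 (-(γ : ℂ)) t b (p2 g) else 0 := by
  rw [Lop3, thI_el, thI_el, thI_el]
  simp only [HahnSeries.coeff_add, HahnSeries.coeff_sub, HahnSeries.coeff_smul, coeff_z, el_coeff, smul_eq_C_mul,
    map_sub, dI_g₀, p1_mk, p2_mk, sub_zero, sub_neg_eq_add]
  by_cases h : p1 g = γ
  · simp only [if_pos h, LI3]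
  · simp only [if_neg h]
    simp

/-- the exponential solutions -/
lemma exists_exp3 (t μ : ℝ) (ht : t ≠ 0) (hμ : μ ^ 2 + 11 * μ - 1 = 0) :
    ∃ (b : ℤ → ℂ[X]) (hb : Bdd 2 b), b 2 = 1 ∧ Lop3 dI t (el (-(t * μ)) 2 b hb) = 0 := by
  have h11 : 2 - 11 * μ ≠ 0 := by
    intro h
    have : μ = 2 / 11 := by linarith
    rw [this] at hμ; norm_num at hμ
  set T : ℂ := (t : ℂ) with hT
  set M : ℂ := (μ : ℂ) with hM
  have hMc : M ^ 2 + 11 * M - 1 = 0 := by rw [hM]; exact_mod_cast hμ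
  have hT0 : T ≠ 0 := by rw [hT]; exact_mod_cast ht
  have hM11 : 2 - 11 * M ≠ 0 := by rw [hM]; exact_mod_cast h11
  set c : ℂ := T ^ 2 * (2 - 11 * M) with hc
  have hc0 : c ≠ 0 := mul_ne_zero (pow_ne_zero _ hT0) hM11
  let l : ℂ := T * M
  let c1 : ℂ → ℂ := fun ρ => l * (3 * ρ ^ 2 + 3 * ρ + 1) + T * (11 * ρ ^ 2 + 11 * ρ + 3)
  obtain ⟨β, hβ0, hβ⟩ := exists_rec (α := ℂ) 2 (fun k g => if k = 2 then 1 else
    2 * (c1 (-(k - 2) / 2) * g (k - 2) + (-(k - 4) / 2) ^ 3 * g (k - 4)) / ((k - 2) * c)) 0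
    (by
      intro k g g' h
      rw [h (k - 2) (by omega), h (k - 4) (by omega)])
  have hrec : ∀ k : ℤ, ((k : ℂ) - 2) * c * β k = 2 * (c1 (-(k - 2) / 2) * β (k - 2) +
      (-(k - 4) / 2) ^ 3 * β (k - 4)) := by
    intro k
    rcases lt_trichotomy k 2 with h | h | h
    · rw [hβ0 k h, hβ0 (k - 2) (by omega), hβ0 (k - 4) (by omega)]; simp
    · subst h
      rw [hβ0 (2 - 2) (by omega), hβ0 (2 - 4) (by omega)]; simp
    · have h1 := hβ k (by omega)
      rw [if_neg (by omega)] at h1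
      have h2 : ((k : ℂ) - 2) ≠ 0 := by
        intro h3
        have : (k : ℂ) = 2 := by linear_combination h3
        have : k = 2 := by exact_mod_cast this
        omega
      rw [h1]
      field_simp
  have hb : Bdd 2 (fun k => C (β k)) := fun k hk => by
    show C (β k) = 0
    rw [hβ0 k hk, map_zero]
  refine ⟨fun k => C (β k), hb, ?_, ?_⟩
  · have := hβ 2 le_rfl
    rw [if_pos rfl] at this
    show C (β 2) = 1
    rw [this, map_one]
  · ext1
    funext g
    rw [LI3_coeff, HahnSeries.coeff_zero]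
    split_ifs with hg
    · have hl : (-((-(t * μ) : ℝ) : ℂ)) = l := by push_cast; ring
      rw [hl]
      set k := p2 g
      have h6 := hrec (k + 4)
      have e1 : k + 4 - 2 = k + 2 := by ring
      have e2 : k + 4 - 4 = k := by ring
      have e4 : k + 2 + 2 = k + 4 := by ring
      have e5 : k + 4 + 2 = k + 6 := by ring
      rw [e1, e2] at h6
      simp only [LI3, TI, e4, e5, derivative_C, derivative_add, derivative_mul, mul_zero, zero_mul, zero_add, add_zero]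
      simp only [← C_mul, ← C_add, ← C_sub]
      rw [C_eq_zero]
      push_cast at h6 ⊢
      simp only [c1, l, hc] at h6 ⊢
      linear_combination (-1 / 2) * h6 + T ^ 3 * M * β (k + 6) * hMc - (3 / 2 * (k : ℂ) + 3) * T ^ 2 * β (k + 4) * hMc
    · rfl

end Pool.Agent.E8helper52.AZ3
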