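import Mathlib
import Pool.Agent.E8helper81.AZ.Zero
import Pool.Agent.E8helper52.AZ3.Sol3

/-!
# Project AZ, `ζ(2)`: formal solutions at zero and regular solutions at infinity
-/

set_option autoImplicit false

namespace Pool.Agent.E8helper52.AZ3

open Polynomial Pool.Agent.E8helper42.AZ Pool.Agent.E8helper81.AZ

/-! ### at zero -/

/-- the coefficients of `Lop3 d0 t (el 0 m b hb)` -/
lemma coeff03 (t : ℂ) {m : ℤ} {b : ℤ → ℂ[X]} (hb : Bdd m b) (g : Gam) :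
    (Lop3 d0 t (el 0 m b hb)).coeff g = if p1 g = 0 then
      T0 (T0 (T0 b)) (p2 g) + t • ((11 : ℂ) • T0 (T0 b) (p2 g - 2) + (11 : ℂ) • T0 b (p2 g - 2) + (3 : ℂ) • b (p2 g - 2)) -
        t ^ 2 • (T0 b (p2 g - 4) + b (p2 g - 4)) else 0 := by
  unfold Lop3
  simp only [th0_el, mul_add, z_smul, z0_el]
  simp only [HahnSeries.coeff_add, HahnSeries.coeff_sub, HahnSeries.coeff_smul, el_coeff]
  by_cases h : p1 g = 0
  · simp only [h, if_true]
    have e : p2 g - 2 - 2 = p2 g - 4 := by ring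
    rw [e]
  · simp only [h, if_false, smul_zero, add_zero, sub_zero]

/-- the right side of the recursion at zero -/
noncomputable def rhs03 (t : ℂ) (k : ℤ) (p q : ℂ[X]) : ℂ[X] :=
  t ^ 2 • (Dc (1 / 2 * ((k - 4 : ℤ) : ℂ)) q + q) -
    t • ((11 : ℂ) • Dc (1 / 2 * ((k - 2 : ℤ) : ℂ)) (Dc (1 / 2 * ((k - 2 : ℤ) : ℂ)) p) +
    (11 : ℂ) • Dc (1 / 2 * ((k - 2 : ℤ) : ℂ)) p + (3 : ℂ) • p)

lemma rhs03_zero (t : ℂ) (k : ℤ) : rhs03 t k 0 0 = 0 := by
  unfold rhs03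
  simp [Dc_zero]

lemma Lop03_zero (t : ℂ) {m : ℤ} {b : ℤ → ℂ[X]} (hb : Bdd m b) :
    Lop3 d0 t (el 0 m b hb) = 0 ↔ ∀ k : ℤ, Dc (1 / 2 * (k : ℂ)) (Dc (1 / 2 * (k : ℂ)) (Dc (1 / 2 * (k : ℂ))
      (b k))) = rhs03 t k (b (k - 2)) (b (k - 4)) := by
  constructor
  · intro h k
    have h1 := coeff03 t hb (mk 0 k)
    rw [h, p1_mk, if_pos rfl, p2_mk, HahnSeries.coeff_zero] at h1
    simp only [T0_eq] at h1
    unfold rhs03
    linear_combination (exp := 1) -h1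
  · intro h
    ext1
    funext g
    rw [coeff03 t hb g, HahnSeries.coeff_zero]
    split_ifs
    · have h1 := h (p2 g)
      simp only [T0_eq]
      unfold rhs03 at h1
      linear_combination (exp := 1) h1
    · rfl

/-- the solution at zero -/
noncomputable def b03 (t : ℂ) : ℤ → ℂ[X] := bb 0 (C (1 / 2) * X ^ 2) fun k p q =>
  sol (1 / 2 * (k : ℂ)) (sol (1 / 2 * (k : ℂ)) (sol (1 / 2 * (k : ℂ)) (rhs03 t k p q)))

theorem s_ZERO3 (t : ℂ) :
    (∃ (b : ℤ → ℂ[X]) (hb : Bdd 0 b), b 0 = C (1 / 2) * X ^ 2 ∧ Lop3 d0 t (el 0 0 b hb) = 0) ∧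
    ∀ (b : ℤ → ℂ[X]) (hb : Bdd 0 b), b 0 = 0 → Lop3 d0 t (el 0 0 b hb) = 0 → el 0 0 b hb = 0 := by
  constructor
  · refine ⟨b03 t, fun k hk => bb_lt hk, bb_eq, ?_⟩
    rw [Lop03_zero]
    intro k
    rcases lt_trichotomy k 0 with hk | hk | hk
    · have e1 : b03 t k = 0 := bb_lt hk
      have e2 : b03 t (k - 2) = 0 := bb_lt (by omega)
      have e3 : b03 t (k - 4) = 0 := bb_lt (by omega)
      rw [e1, e2, e3, rhs03_zero]
      simp only [Dc_zero]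
    · subst hk
      have e1 : b03 t 0 = C (1 / 2) * X ^ 2 := bb_eq
      have e2 : b03 t (0 - 2) = 0 := bb_lt (by omega)
      have e3 : b03 t (0 - 4) = 0 := bb_lt (by omega)
      rw [e1, e2, e3, rhs03_zero]
      unfold Dc
      simp only [Int.cast_zero, mul_zero, map_zero, zero_mul, add_zero]
      simp
    · have e1 : b03 t k = sol (1 / 2 * (k : ℂ)) (sol (1 / 2 * (k : ℂ)) (sol (1 / 2 * (k : ℂ))
          (rhs03 t k (b03 t (k - 2)) (b03 t (k - 4))))) := bb_gt hk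
      rw [e1, Dc_sol (half_ne hk), Dc_sol (half_ne hk), Dc_sol (half_ne hk)]
  · intro b hb hb0 h
    rw [Lop03_zero] at h
    have h2 : ∀ k, b k = 0 := by
      refine int_ind 0 _ ?_ ?_
      · intro k hk
        rcases hk.lt_or_eq with h | h
        · exact hb k h
        · rw [h]; exact hb0
      · intro k hk h3 h4
        have h5 := h k
        rw [h3, h4, rhs03_zero] at h5
        exact Dc_inj (half_ne hk) (Dc_inj (half_ne hk) (Dc_inj (half_ne hk) h5))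
    ext1
    funext g
    rw [el_coeff, h2]
    simp

/-! ### at infinity -/

/-- the coefficients of `Lop3 dI t (el 0 m b hb)` -/
lemma coeffI3 (t : ℂ) {m : ℤ} {b : ℤ → ℂ[X]} (hb : Bdd m b) (g : Gam) :
    (Lop3 dI t (el 0 m b hb)).coeff g = if p1 g = 0 then
      Dc (-1 / 2 * (p2 g : ℂ)) (Dc (-1 / 2 * (p2 g : ℂ)) (Dc (-1 / 2 * (p2 g : ℂ)) (b (p2 g)))) +
      t • ((11 : ℂ) • Dc (-1 / 2 * ((p2 g + 2 : ℤ) : ℂ)) (Dc (-1 / 2 * ((p2 g + 2 : ℤ) : ℂ)) (b (p2 g + 2))) +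
        (11 : ℂ) • Dc (-1 / 2 * ((p2 g + 2 : ℤ) : ℂ)) (b (p2 g + 2)) + (3 : ℂ) • b (p2 g + 2)) -
        t ^ 2 • (Dc (-1 / 2 * ((p2 g + 4 : ℤ) : ℂ)) (b (p2 g + 4)) + b (p2 g + 4)) else 0 := by
  unfold Lop3
  simp only [thI_el, mul_add, z_smul, zI_el]
  simp only [HahnSeries.coeff_add, HahnSeries.coeff_sub, HahnSeries.coeff_smul, el_coeff]
  by_cases h : p1 g = 0
  · simp only [h, if_true, TI_eq]
    have e : p2 g + 2 + 2 = p2 g + 4 := by ring
    rw [e]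
  · simp only [h, if_false, smul_zero, add_zero, sub_zero]

/-- the right side of the recursion at infinity -/
noncomputable def rhsI3 (t : ℂ) (k : ℤ) (p q : ℂ[X]) : ℂ[X] :=
  t • ((11 : ℂ) • Dc (-1 / 2 * ((k - 2 : ℤ) : ℂ)) (Dc (-1 / 2 * ((k - 2 : ℤ) : ℂ)) p) +
    (11 : ℂ) • Dc (-1 / 2 * ((k - 2 : ℤ) : ℂ)) p + (3 : ℂ) • p) +
    Dc (-1 / 2 * ((k - 4 : ℤ) : ℂ)) (Dc (-1 / 2 * ((k - 4 : ℤ) : ℂ)) (Dc (-1 / 2 * ((k - 4 : ℤ) : ℂ)) q))

lemma rhsI3_zero (t : ℂ) (k : ℤ) : rhsI3 t k 0 0 = 0 := by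
  unfold rhsI3
  simp [Dc_zero]

lemma Dc_one (c : ℂ) (p : ℂ[X]) : Dc c p + p = Dc (1 + c) p := by
  unfold Dc
  simp only [C_add, C_1]
  ring

lemma coeffI3' (t : ℂ) {m : ℤ} {b : ℤ → ℂ[X]} (hb : Bdd m b) (k : ℤ) :
    (Lop3 dI t (el 0 m b hb)).coeff (mk 0 (k - 4)) =
      rhsI3 t k (b (k - 2)) (b (k - 4)) - t ^ 2 • Dc (1 + -1 / 2 * (k : ℂ)) (b k) := by
  rw [coeffI3, p1_mk, if_pos rfl, p2_mk]
  have e1 : k - 4 + 2 = k - 2 := by ring
  have e2 : k - 4 + 4 = k := by ring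
  rw [e1, e2, ← Dc_one]
  unfold rhsI3
  ring

/-- the solution at infinity -/
noncomputable def bI3 (t : ℂ) (p0 : ℂ[X]) : ℤ → ℂ[X] := bb 2 p0 fun k p q =>
  sol (1 + -1 / 2 * (k : ℂ)) ((1 / t ^ 2) • rhsI3 t k p q)

theorem s_REG3 (t : ℂ) (ht : t ≠ 0) :
    (∀ p : ℂ[X], ∃ (b : ℤ → ℂ[X]) (hb : Bdd 2 b), b 2 = p ∧ ∀ g, (Lop3 dI t (el 0 2 b hb)).coeff g =
      if g = mk 0 (-2) then - (C (t ^ 2) * derivative p) else 0) ∧
    ∀ (b : ℤ → ℂ[X]) (hb : Bdd 2 b), b 2 = 0 → Lop3 dI t (el 0 2 b hb) = 0 → el 0 2 b hb = 0 := by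
  have ht2 : t ^ 2 ≠ 0 := pow_ne_zero 2 ht
  constructor
  · intro p
    refine ⟨bI3 t p, fun k hk => bb_lt hk, bb_eq, ?_⟩
    intro g
    by_cases hp : p1 g = 0
    · obtain ⟨k, hk⟩ : ∃ k : ℤ, k - 4 = p2 g := ⟨p2 g + 4, by ring⟩
      have hg : g = mk 0 (k - 4) := gam_ext (by rw [hp, p1_mk]) (by rw [p2_mk, hk])
      rw [hg, coeffI3']
      rcases lt_trichotomy k 2 with h | h | h
      · have e1 : bI3 t p k = 0 := bb_lt h
        have e2 : bI3 t p (k - 2) = 0 := bb_lt (by omega)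
        have e3 : bI3 t p (k - 4) = 0 := bb_lt (by omega)
        rw [e1, e2, e3, rhsI3_zero, if_neg]
        · simp only [Dc_zero, smul_zero, sub_zero]
        · intro h5
          have := congrArg p2 h5
          rw [p2_mk, p2_mk] at this
          omega
      · subst h
        have e1 : bI3 t p 2 = p := bb_eq
        have e2 : bI3 t p (2 - 2) = 0 := bb_lt (by omega)
        have e3 : bI3 t p (2 - 4) = 0 := bb_lt (by omega)
        rw [e1, e2, e3, rhsI3_zero, if_pos (by norm_num)]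
        have e4 : (1 + -1 / 2 * ((2 : ℤ) : ℂ)) = 0 := by push_cast; ring
        rw [e4]
        unfold Dc
        simp only [map_zero, zero_mul, add_zero, zero_sub, smul_eq_C_mul]
      · have e1 : bI3 t p k = sol (1 + -1 / 2 * (k : ℂ))
            ((1 / t ^ 2) • rhsI3 t k (bI3 t p (k - 2)) (bI3 t p (k - 4))) := bb_gt h
        have e2 : t ^ 2 • Dc (1 + -1 / 2 * (k : ℂ)) (bI3 t p k) =
            rhsI3 t k (bI3 t p (k - 2)) (bI3 t p (k - 4)) := by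
          rw [e1, Dc_sol (one_sub_ne h), smul_smul, mul_one_div_cancel ht2, one_smul]
        rw [e2, sub_self, if_neg]
        intro h5
        have := congrArg p2 h5
        rw [p2_mk, p2_mk] at this
        omega
    · rw [coeffI3, if_neg hp, if_neg]
      intro h
      apply hp
      rw [h, p1_mk]
  · intro b hb hb0 h
    have h2 : ∀ k, b k = 0 := by
      refine int_ind 2 _ ?_ ?_
      · intro k hk
        rcases hk.lt_or_eq with h | h
        · exact hb k h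
        · rw [h]; exact hb0
      · intro k hk h3 h4
        have h5 := coeffI3' t hb k
        rw [h, h3, h4, rhsI3_zero, HahnSeries.coeff_zero, zero_sub] at h5
        have h6 := (smul_eq_zero.1 (neg_eq_zero.1 h5.symm)).resolve_left ht2
        exact Dc_inj (one_sub_ne hk) h6
    ext1
    funext g
    rw [el_coeff, h2]
    simp

end Pool.Agent.E8helper52.AZ3
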