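import Mathlib
import Pool.Agent.E8helper42.AZ.InfB
import Pool.Agent.E8helper52.AZ3.Reg3

/-!
# Project AZ, `ζ(2)`: the solutions at infinity
-/

set_option autoImplicit false

namespace Pool.Agent.E8helper52.AZ3

open Polynomial Pool.Agent.E8helper42.AZ

lemma sqrt5_pos : (0 : ℝ) < √5 := Real.sqrt_pos.2 (by norm_num)

lemma sqrt5_sq : (√5 : ℝ) ^ 2 = 5 := Real.sq_sqrt (by norm_num)

lemma mup_pos : (0 : ℝ) < (-11 + 5 * √5) / 2 := by
  have h2 := sqrt5_sq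
  have := sqrt5_pos
  nlinarith

lemma mum_neg : (-11 - 5 * √5) / 2 < (0 : ℝ) := by
  have := sqrt5_pos
  linarith

/-- a fundamental system of solutions at infinity -/
structure SolInf3 (t : ℚ) where
  f0 : RR
  f1 : RR
  f2 : RR
  bh : RR
  eq0 : Lop3 dI t f0 = 0
  eq1 : Lop3 dI t f1 = 0
  eq2 : Lop3 dI t f2 = 0
  eq_b : Lop3 dI t bh = (-5 * (t : ℂ)) • dI.z
  k0 : f0.coeff (E8helper42.AZ.mk (-(t * ((-11 + 5 * √5) / 2))) 2) = 1
  s0 : ∀ g, f0.coeff g ≠ 0 → p1 g = -(t * ((-11 + 5 * √5) / 2)) ∧ 2 ≤ p2 g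
  k1 : f1.coeff (E8helper42.AZ.mk (-(t * ((-11 - 5 * √5) / 2))) 2) = 1
  s1 : ∀ g, f1.coeff g ≠ 0 → p1 g = -(t * ((-11 - 5 * √5) / 2)) ∧ 2 ≤ p2 g
  s2 : ∀ g, f2.coeff g ≠ 0 → p1 g = 0 ∧ 2 ≤ p2 g
  k2 : f2.coeff (E8helper42.AZ.mk 0 2) = 1
  kb : bh.coeff (E8helper42.AZ.mk 0 2) = C (5 / (t : ℂ)) * X
  c0 : ∀ κ : ℝ →ₗ[ℚ] ℚ, cw 0 (chi κ) f0 = ((t * κ ((-11 + 5 * √5) / 2) : ℚ) : ℂ) • f0
  c1 : ∀ κ : ℝ →ₗ[ℚ] ℚ, cw 0 (chi κ) f1 = ((t * κ ((-11 - 5 * √5) / 2) : ℚ) : ℂ) • f1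
  c2 : ∀ κ : ℝ →ₗ[ℚ] ℚ, cw 0 (chi κ) f2 = 0
  cb : ∀ κ : ℝ →ₗ[ℚ] ℚ, cw 0 (chi κ) bh = 0

theorem exists_solInf3 (t : ℚ) (ht : 0 < t) : Nonempty (SolInf3 t) := by
  have h2 := sqrt5_sq
  have htR : (t : ℝ) ≠ 0 := by exact_mod_cast ht.ne'
  have htC : (t : ℂ) ≠ 0 := by exact_mod_cast ht.ne'
  obtain ⟨b0, hb0, hb03, hb0L⟩ := exists_exp3 t ((-11 + 5 * √5) / 2) htR (by nlinarith)
  obtain ⟨b1, hb1, hb13, hb1L⟩ := exists_exp3 t ((-11 - 5 * √5) / 2) htR (by nlinarith)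
  obtain ⟨hex, -⟩ := s_REG3 t htC
  obtain ⟨b3, hb3, hb32, hb3L⟩ := hex 1
  obtain ⟨bh, hbh, hbh2, hbhL⟩ := hex (C (5 / (t : ℂ)) * X)
  have hL3 : Lop3 dI t (el 0 2 b3 hb3) = 0 := by
    ext1
    funext g
    rw [hb3L]
    simp
  have hLh : Lop3 dI t (el 0 2 bh hbh) = (-5 * (t : ℂ)) • dI.z := by
    ext1
    funext g
    rw [hbhL, HahnSeries.coeff_smul, Dat.z, HahnSeries.coeff_single, dI_g₀]
    split_ifs with h
    · rw [smul_eq_C_mul, mul_one]
      simp only [derivative_mul, derivative_C, zero_mul, zero_add, derivative_X, mul_one, ← C_mul, ← C_neg]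
      congr 1
      field_simp
    · simp
  have hsup : ∀ (γ : ℝ) (m : ℤ) (b : ℤ → ℂ[X]) (hb : Bdd m b) (g : Gam), (el γ m b hb).coeff g ≠ 0 → p1 g = γ ∧ m ≤ p2 g := by
    intro γ m b hb g h
    rw [el_coeff] at h
    split_ifs at h with h1
    · refine ⟨h1, ?_⟩
      by_contra h3
      exact h (hb _ (not_le.1 h3))
    · exact absurd rfl h
  have hchi : ∀ (κ : ℝ →ₗ[ℚ] ℚ) (b : ℤ → ℂ[X]) (hb : Bdd 2 b), cw 0 (chi κ) (el 0 2 b hb) = 0 := by
    intro κ b hb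
    rw [cw_el 0 (chi κ) hb 0, zero_smul']
    · intro g hg
      rw [chi_apply, hg, map_zero]; simp
    · intro k; simp
  exact ⟨{
    f0 := el (-(t * ((-11 + 5 * √5) / 2))) 2 b0 hb0
    f1 := el (-(t * ((-11 - 5 * √5) / 2))) 2 b1 hb1
    f2 := el 0 2 b3 hb3
    bh := el 0 2 bh hbh
    eq0 := hb0L
    eq1 := hb1L
    eq2 := hL3
    eq_b := hLh
    k0 := by rw [el_coeff, p1_mk, if_pos rfl, p2_mk, hb03]
    s0 := hsup _ _ _ _
    k1 := by rw [el_coeff, p1_mk, if_pos rfl, p2_mk, hb13]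
    s1 := hsup _ _ _ _
    s2 := hsup _ _ _ _
    k2 := by rw [el_coeff, p1_mk, if_pos rfl, p2_mk, hb32]
    kb := by rw [el_coeff, p1_mk, if_pos rfl, p2_mk, hbh2]
    c0 := by
      intro κ
      rw [cw_el 0 (chi κ) hb0 ((t * κ ((-11 + 5 * √5) / 2) : ℚ) : ℂ)]
      · intro g hg
        rw [chi_apply, hg, kap_smul]
        push_cast; ring
      · intro k; simp
    c1 := by
      intro κ
      rw [cw_el 0 (chi κ) hb1 ((t * κ ((-11 - 5 * √5) / 2) : ℚ) : ℂ)]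
      · intro g hg
        rw [chi_apply, hg, kap_smul]
        push_cast; ring
      · intro k; simp
    c2 := fun κ => hchi κ _ _
    cb := fun κ => hchi κ _ _ }⟩

/-- the solutions as a family -/
noncomputable def SolInf3.f {t : ℚ} (S : SolInf3 t) : Fin 3 → RR := ![S.f0, S.f1, S.f2]

lemma SolInf3.eq_f {t : ℚ} (S : SolInf3 t) (j : Fin 3) : Lop3 dI t (S.f j) = 0 := by
  fin_cases j
  · exact S.eq0
  · exact S.eq1
  · exact S.eq2

variable {t : ℚ} (S : SolInf3 t) (ht : 0 < t)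

include ht in
lemma SolInf3.combination_zero (c : Fin 3 → ℂ) (h : ∑ j, algebraMap ℂ RR (c j) * S.f j = 0) : c = 0 := by
  have htR : (0 : ℝ) < t := by exact_mod_cast ht
  have hp := mul_pos htR mup_pos
  have hm := mul_neg_of_pos_of_neg htR mum_neg
  have hc : ∀ g, C (c 0) * S.f0.coeff g + C (c 1) * S.f1.coeff g + C (c 2) * S.f2.coeff g = 0 := by
    intro g
    have := congrArg (fun u : RR => u.coeff g) h
    simp only [Fin.sum_univ_three, HahnSeries.coeff_add, amul_coeff, HahnSeries.coeff_zero] at this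
    exact this
  have h0 : c 0 = 0 := by
    have h1 := hc (E8helper42.AZ.mk (-(t * ((-11 + 5 * √5) / 2))) 2)
    rw [S.k0, zero_of _ _ S.s1 _ (by
        rintro ⟨h, -⟩
        rw [p1_mk] at h
        linarith), zero_of _ _ S.s2 _ (by
        rintro ⟨h, -⟩
        rw [p1_mk] at h
        linarith)] at h1
    simpa using h1
  have h1 : c 1 = 0 := by
    have h1 := hc (E8helper42.AZ.mk (-(t * ((-11 - 5 * √5) / 2))) 2)
    rw [S.k1, zero_of _ _ S.s0 _ (by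
        rintro ⟨h, -⟩
        rw [p1_mk] at h
        linarith), zero_of _ _ S.s2 _ (by
        rintro ⟨h, -⟩
        rw [p1_mk] at h
        linarith)] at h1
    simpa using h1
  have h2 := hc (E8helper42.AZ.mk 0 2)
  rw [h0, h1, S.k2, map_zero, zero_mul, zero_mul, zero_add, zero_add, mul_one] at h2
  have h4 : c 2 = 0 := C_eq_zero.1 h2
  funext j
  fin_cases j
  · exact h0
  · exact h1
  · exact h4

include ht in
theorem SolInf3.exists_inv (hS : S_STAR) (hW : S_W) : ∃ Ψ, Phi3 dI S.f * Ψ = 1 := by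
  refine hW hS (RD dI) (thD dI) (thD_simple dI) 3 _ (Phi3 dI S.f) (Phi3_eq dI t S.f S.eq_f) ?_
  intro c hc
  apply S.combination_zero ht
  have := congrFun hc 0
  rw [Matrix.mulVec, dotProduct, Pi.zero_apply] at this
  refine Eq.trans ?_ this
  refine Finset.sum_congr rfl fun j _ => ?_
  exact mul_comm (algebraMap ℂ RR (c j)) (S.f j)

include ht S in
theorem SolInf3.noSol (hS : S_STAR) (hW : S_W) :
    ¬ ∃ b : Fin 3 → FF, thF ∘ b = (AF3 t).mulVec b + gF3 (-5 * t) := by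
  rintro ⟨v, hv⟩
  obtain ⟨Ψ, hΨ⟩ := S.exists_inv ht hS hW
  have e1 := solv3_eq dI t (-5 * t) S.bh S.eq_b
  set x : Fin 3 → RD dI := fun i => (dI.emb (v i) - solv3 dI S.bh i : RR) with hx
  have hthx : thD dI ∘ x = ((AF3 t).map (algebraMap FF (RD dI))).mulVec x := by
    funext i
    have h1 : (thD dI ∘ x) i = dI.th (dI.emb (v i)) - dI.th (solv3 dI S.bh i) := map_sub dI.th _ _
    rw [h1, dI.emb_th]
    have h2 := congrFun hv i
    rw [Function.comp_apply] at h2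
    have h3 := congrFun e1 i
    rw [h2, h3, Pi.add_apply, Pi.add_apply, map_add, add_sub_add_right_eq_sub]
    have h4 : ((AF3 t).map (algebraMap FF (RD dI))).mulVec x i =
      ∑ j, dI.emb (AF3 t i j) * (dI.emb (v j) - solv3 dI S.bh j) := rfl
    rw [h4, Matrix.mulVec, dotProduct, map_sum, Matrix.mulVec, dotProduct, ← Finset.sum_sub_distrib]
    refine Finset.sum_congr rfl fun j _ => ?_
    rw [map_mul, Matrix.map_apply, mul_sub]
  obtain ⟨c, hc⟩ := sol_comb (thD_simple dI) _ _ _ hΨ (Phi3_eq dI t S.f S.eq_f) x hthx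
  have h0 : (dI.emb (v 0) - S.bh : RR) = ∑ j, algebraMap ℂ RR (c j) * S.f j := by
    have h1 := congrFun hc 0
    rw [Matrix.mulVec, dotProduct] at h1
    refine h1.trans ?_
    refine Finset.sum_congr rfl fun j _ => ?_
    rw [mul_comm]
    rfl
  have htR : (0 : ℝ) < t := by exact_mod_cast ht
  have hp := mul_pos htR mup_pos
  have hm := mul_neg_of_pos_of_neg htR mum_neg
  have h1 := congrArg (fun u : RR => u.coeff (E8helper42.AZ.mk 0 2)) h0
  simp only [Fin.sum_univ_three, HahnSeries.coeff_add, HahnSeries.coeff_sub, amul_coeff] at h1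
  have h2 : (S.f 0).coeff (E8helper42.AZ.mk 0 2) = 0 := zero_of _ _ S.s0 _ (by
    rintro ⟨h, -⟩
    rw [p1_mk] at h
    linarith)
  have h3 : (S.f 1).coeff (E8helper42.AZ.mk 0 2) = 0 := zero_of _ _ S.s1 _ (by
    rintro ⟨h, -⟩
    rw [p1_mk] at h
    linarith)
  have h4 : (S.f 2).coeff (E8helper42.AZ.mk 0 2) = 1 := S.k2
  rw [h2, h3, h4, S.kb] at h1
  have h6 := congrArg (fun p => derivative p) h1
  simp only [derivative_sub, emb_coeff_const, derivative_add, derivative_mul, derivative_C, zero_mul, zero_add,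
    mul_zero, derivative_one, add_zero, derivative_X, mul_one, zero_sub, neg_eq_zero, C_eq_zero] at h6
  have h8 : (t : ℂ) ≠ 0 := by exact_mod_cast ht.ne'
  exact (div_ne_zero (by norm_num) h8) h6

end Pool.Agent.E8helper52.AZ3
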