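import Mathlib
import Pool.Agent.E8helper42.AZ.Irr
import Pool.Agent.E8helper52.AZ3.Inf3

/-!
# Project AZ, `ζ(2)`: irreducibility of the connection of order three
-/

set_option autoImplicit false

namespace Pool.Agent.E8helper52.AZ3

open Polynomial Pool.Agent.E8helper42.AZ

lemma KS.solv3 {m : ℤ} {u : RR} (hu : KS m u) (i : Fin 3) : KS (m - 2 * ((i : ℕ) : ℤ)) (solv3 dI u i) := by
  fin_cases i
  · exact hu.mono (by simp)
  · exact hu.th.mono (by simp)
  · exact hu.th.th.mono (by show m - 2 * 2 ≤ m - 2 - 2; omega)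

lemma RS.solv3 {u : RR} (hu : RS u) (i : Fin 3) : RS (solv3 dI u i) := by
  fin_cases i
  · exact hu
  · exact hu.th
  · exact hu.th.th

/-- the weights -/
def wt3 (i j : Fin 3) : ℤ := if j < 2 then 2 - 2 * ((i : ℕ) : ℤ) else 2

lemma SolInf3.wt {t : ℚ} (S : SolInf3 t) (i j : Fin 3) : KS (wt3 i j) (solv3 dI (S.f j) i) := by
  fin_cases j
  · exact KS.solv3 (m := 2) (fun g hg => (S.s0 g hg).2) i
  · exact KS.solv3 (m := 2) (fun g hg => (S.s1 g hg).2) i
  · exact fun g hg => (RS.solv3 (u := S.f2) S.s2 i g hg).2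

lemma wt3_pos1 : ∀ I : Fin 1 → Fin 3, ∀ σ : Equiv.Perm (Fin 1), 1 ≤ ∑ i, wt3 (Fin.castLE (by norm_num) (σ i)) (I i) := by
  decide

lemma wt3_pos2 : ∀ I : Fin 2 → Fin 3, ∀ σ : Equiv.Perm (Fin 2), 1 ≤ ∑ i, wt3 (Fin.castLE (by norm_num) (σ i)) (I i) := by
  decide

lemma minor3_KS {t : ℚ} (S : SolInf3 t) (r : ℕ) (hr1 : 1 ≤ r) (hr3 : r ≤ 2) (hr : r ≤ 3) (I : Fin r → Fin 3) :
    KS 1 (Matrix.of fun i j : Fin r => solv3 dI (S.f (I j)) (Fin.castLE hr i)).det := by
  rw [Matrix.det_apply]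
  refine KS.sum _ _ fun σ _ => ?_
  have h1 : KS (∑ i, wt3 (Fin.castLE hr (σ i)) (I i)) (∏ i, solv3 dI (S.f (I i)) (Fin.castLE hr (σ i))) :=
    KS.prod _ _ _ fun i _ => S.wt _ _
  have h2 : 1 ≤ ∑ i, wt3 (Fin.castLE hr (σ i)) (I i) := by
    interval_cases r
    · exact wt3_pos1 I σ
    · exact wt3_pos2 I σ
  have h3 := h1.mono h2
  rcases Int.units_eq_one_or (Equiv.Perm.sign σ) with h | h
  · rw [h, one_smul]; exact h3
  · rw [h, Units.neg_smul, one_smul]; exact h3.neg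

lemma coord3 (G : Submodule ℂ (Fin 3 → ℂ)) (h0 : ∀ c ∈ G, Pi.single 0 (c 0) ∈ G) (h1 : ∀ c ∈ G, Pi.single 1 (c 1) ∈ G) :
    ∃ S : Finset (Fin 3), (∀ j ∈ S, (Pi.single j 1 : Fin 3 → ℂ) ∈ G) ∧ S.card = Module.finrank ℂ G := by
  classical
  have hsm : ∀ (j : Fin 3) (a : ℂ), a ≠ 0 → Pi.single j a ∈ G → (Pi.single j 1 : Fin 3 → ℂ) ∈ G := by
    intro j a ha h
    have := G.smul_mem a⁻¹ h
    rwa [← Pi.single_smul, smul_eq_mul, inv_mul_cancel₀ ha] at this
  set S : Finset (Fin 3) := Finset.univ.filter (fun j => (Pi.single j 1 : Fin 3 → ℂ) ∈ G) with hS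
  have hmem : ∀ j, j ∈ S ↔ (Pi.single j 1 : Fin 3 → ℂ) ∈ G := fun j => by rw [hS, Finset.mem_filter]; simp
  refine ⟨S, fun j hj => (hmem j).1 hj, ?_⟩
  have hli : LinearIndependent ℂ (fun j : S => (Pi.single (j : Fin 3) 1 : Fin 3 → ℂ)) := by
    have h := (Pi.basisFun ℂ (Fin 3)).linearIndependent.comp (fun j : S => (j : Fin 3)) Subtype.val_injective
    convert h using 2
    simp
  have hspan : Submodule.span ℂ (Set.range fun j : S => (Pi.single (j : Fin 3) 1 : Fin 3 → ℂ)) = G := by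
    apply le_antisymm
    · rw [Submodule.span_le]
      rintro _ ⟨j, rfl⟩
      exact (hmem j).1 j.2
    · intro c hc
      have hs : ∀ (j : Fin 3) (a : ℂ), (a ≠ 0 → (Pi.single j 1 : Fin 3 → ℂ) ∈ G) →
          Pi.single j a ∈ Submodule.span ℂ (Set.range fun j : S => (Pi.single (j : Fin 3) 1 : Fin 3 → ℂ)) := by
        intro j a h
        by_cases ha : a = 0
        · rw [ha, Pi.single_zero]; exact Submodule.zero_mem _
        · have h3 : (Pi.single j a : Fin 3 → ℂ) = a • Pi.single j 1 := by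
            rw [← Pi.single_smul, smul_eq_mul, mul_one]
          rw [h3]
          exact Submodule.smul_mem _ _ (Submodule.subset_span ⟨⟨j, (hmem j).2 (h ha)⟩, rfl⟩)
      have e0 := h0 c hc
      have e1 := h1 c hc
      have hsum : c = Pi.single 0 (c 0) + Pi.single 1 (c 1) + Pi.single 2 (c 2) := by
        funext j
        fin_cases j <;> simp
      have hrest : (Pi.single 2 (c 2) : Fin 3 → ℂ) ∈ G := by
        have : (Pi.single 2 (c 2) : Fin 3 → ℂ) = c - Pi.single 0 (c 0) - Pi.single 1 (c 1) := by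
          nth_rewrite 2 [hsum]
          abel
        rw [this]
        exact G.sub_mem (G.sub_mem hc e0) e1
      rw [hsum]
      exact Submodule.add_mem _ (Submodule.add_mem _
        (hs 0 _ fun h => hsm 0 _ h e0) (hs 1 _ fun h => hsm 1 _ h e1)) (hs 2 _ fun h => hsm 2 _ h hrest)
  have h5 := finrank_span_eq_card hli
  rw [hspan, Fintype.card_coe] at h5
  exact h5.symm

lemma single3_mulVec' (i j : Fin 3) (a : ℂ) (c : Fin 3 → ℂ) : (Matrix.single i j a).mulVec c = Pi.single i (a * c j) := by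
  funext k
  rw [Matrix.mulVec, dotProduct, Finset.sum_eq_single j]
  · rw [Matrix.single_apply, Pi.single_apply]
    by_cases h : k = i
    · rw [if_pos ⟨h.symm, rfl⟩, if_pos h]
    · rw [if_neg fun h' => h h'.1.symm, if_neg h, zero_mul]
  · intro l _ hl
    rw [Matrix.single_apply, if_neg fun h' => hl h'.2.symm, zero_mul]
  · intro h; exact absurd (Finset.mem_univ _) h

lemma Phi3_mul_single (d : Dat) (f : Fin 3 → RR) (i j : Fin 3) (a : ℂ) (k l : Fin 3) :
    (Phi3 d f * (Matrix.single i j a).map (algebraMap ℂ (RD d))) k l =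
      if l = j then algebraMap ℂ RR a * solv3 d (f i) k else (0 : RR) := by
  have h1 : (Phi3 d f * (Matrix.single i j a).map (algebraMap ℂ (RD d))) k l =
    ∑ x, solv3 d (f x) k * algebraMap ℂ RR (Matrix.single i j a x l) := rfl
  rw [h1, Finset.sum_eq_single i]
  · rw [Matrix.single_apply]
    by_cases h : l = j
    · rw [if_pos ⟨rfl, h.symm⟩, if_pos h, mul_comm]
    · rw [if_neg fun h' => h h'.2.symm, if_neg h, map_zero, mul_zero]
  · intro x _ hx
    rw [Matrix.single_apply, if_neg fun h' => hx h'.1.symm, map_zero, mul_zero]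
  · intro h; exact absurd (Finset.mem_univ _) h

variable {t : ℚ} (S : SolInf3 t)

lemma AP3_nil (t : ℂ) : IsNilpotent ((AP3 t).map (Polynomial.eval 0)) := by
  refine ⟨3, ?_⟩
  have h : (AP3 t).map (Polynomial.eval 0) = !![0, 1, 0; 0, 0, 1; 0, 0, 0] := by
    ext i j
    fin_cases i <;> fin_cases j <;> simp [AP3]
  rw [h]
  ext i j
  fin_cases i <;> fin_cases j <;> simp [pow_succ, Matrix.mul_apply, Fin.sum_univ_three]

lemma delta3_single (χ : Gam →+ ℂ) (e : ℂ) (h : χ dI.g₀ = 0) (i j : Fin 3) (a : ℂ)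
    (h1 : ∀ l, cw e χ (S.f l) = if l = j then a • S.f i else 0) :
    (Phi3 dI S.f).map (cw e χ : Derivation ℂ (RD dI) (RD dI)) =
      Phi3 dI S.f * (Matrix.single i j a).map (algebraMap ℂ (RD dI)) := by
  refine Matrix.ext fun k l => ?_
  rw [Phi3_mul_single]
  have h2 : (Phi3 dI S.f).map (cw e χ : Derivation ℂ (RD dI) (RD dI)) k l = cw e χ (solv3 dI (S.f l) k) := rfl
  rw [h2, cw_solv3 dI e χ h, h1]
  split_ifs with h3
  · rw [solv3_smul, smul_def']
  · exact solv3_zero dI k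

lemma delta30 (κ : ℝ →ₗ[ℚ] ℚ) (h0 : κ ((-11 + 5 * √5) / 2) = 1) (h1 : κ ((-11 - 5 * √5) / 2) = 0) :
    (Phi3 dI S.f).map (cw 0 (chi κ) : Derivation ℂ (RD dI) (RD dI)) =
      Phi3 dI S.f * (Matrix.single 0 0 (t : ℂ)).map (algebraMap ℂ (RD dI)) := by
  refine delta3_single S (chi κ) 0 (chi_g₀ κ) 0 0 t fun l => ?_
  fin_cases l
  · show cw 0 (chi κ) S.f0 = _
    rw [S.c0, h0, mul_one]
    rfl
  · show cw 0 (chi κ) S.f1 = _
    rw [S.c1, h1, mul_zero, Rat.cast_zero, zero_smul']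
    rfl
  · exact S.c2 κ

lemma delta31 (κ : ℝ →ₗ[ℚ] ℚ) (h0 : κ ((-11 + 5 * √5) / 2) = 0) (h1 : κ ((-11 - 5 * √5) / 2) = 1) :
    (Phi3 dI S.f).map (cw 0 (chi κ) : Derivation ℂ (RD dI) (RD dI)) =
      Phi3 dI S.f * (Matrix.single 1 1 (t : ℂ)).map (algebraMap ℂ (RD dI)) := by
  refine delta3_single S (chi κ) 0 (chi_g₀ κ) 1 1 t fun l => ?_
  fin_cases l
  · show cw 0 (chi κ) S.f0 = _
    rw [S.c0, h0, mul_zero, Rat.cast_zero, zero_smul']
    rfl
  · show cw 0 (chi κ) S.f1 = _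
    rw [S.c1, h1, mul_one]
    rfl
  · exact S.c2 κ

/-- the contradiction from the orders -/
lemma irr3_finish (r : ℕ) (hr1 : 1 ≤ r) (hr2 : r ≤ 2) (hr3 : r ≤ 3) (I : Fin r → Fin 3)
    (w : Matrix (Fin 3) (Fin r) ℂ[X]) (H : Matrix (Fin r) (Fin r) RR) (b : ℂ[X]) (hb : b.eval 0 = 0)
    (hρ0 : (Matrix.of fun i j : Fin r => w (Fin.castLE hr3 i) j).det ≠ 0)
    (hcol : ∀ (i : Fin 3) (j : Fin r), solv3 dI (S.f (I j)) i = ∑ k, aeval dI.z (w i k) * H k j)
    (hh0 : H.det ≠ 0) (hh1 : dI.th H.det = -(aeval dI.z b) * H.det) : False := by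
  set ρ : ℂ[X] := (Matrix.of fun i j : Fin r => w (Fin.castLE hr3 i) j).det with hρ
  have hdet : (Matrix.of fun i j : Fin r => solv3 dI (S.f (I j)) (Fin.castLE hr3 i)).det = aeval dI.z ρ * H.det := by
    have h1 : (Matrix.of fun i j : Fin r => solv3 dI (S.f (I j)) (Fin.castLE hr3 i)) =
        (Matrix.of fun i j : Fin r => w (Fin.castLE hr3 i) j).map (aeval dI.z : ℂ[X] →ₐ[ℂ] RR) * H := by
      refine Matrix.ext fun i j => ?_
      rw [Matrix.of_apply, hcol, Matrix.mul_apply]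
      rfl
    rw [h1, Matrix.det_mul]
    congr 1
    rw [hρ]
    exact ((aeval dI.z : ℂ[X] →ₐ[ℂ] RR).toRingHom.map_det _).symm
  have hks := minor3_KS S r hr1 hr2 hr3 I
  rw [hdet] at hks
  have ho1 := th_order hh0 b hb hh1
  have ho2 := aeval_order ρ hρ0
  have hne : aeval dI.z ρ * H.det ≠ 0 := mul_ne_zero (dI.aeval_ne hρ0) hh0
  have ho3 := hks _ (HahnSeries.coeff_order_eq_zero.not.2 hne)
  rw [HahnSeries.order_mul (dI.aeval_ne hρ0) hh0, map_add] at ho3
  omega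

lemma conn3_map {r : ℕ} (t : ℂ) (w : Matrix (Fin 3) (Fin r) ℂ[X]) (B : Matrix (Fin r) (Fin r) ℂ[X])
    (hwB : w.map (fun p => X * derivative p) - AP3 t * w = w * B) :
    (w.map (algebraMap ℂ[X] FF)).map thF - AF3 t * w.map (algebraMap ℂ[X] FF) =
      w.map (algebraMap ℂ[X] FF) * B.map (algebraMap ℂ[X] FF) := by
  rw [← Matrix.map_mul, ← hwB]
  ext i j
  rw [Matrix.sub_apply, Matrix.map_apply, Matrix.map_apply, thF_poly, Matrix.map_apply, Matrix.sub_apply, map_sub,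
    Matrix.map_apply]
  congr 1
  rw [AF3, ← Matrix.map_mul, Matrix.map_apply]

/-- the matrix whose columns are unit vectors -/
def selM3 {r : ℕ} (I : Fin r → Fin 3) : Matrix (Fin 3) (Fin r) ℂ := Matrix.of fun i j => if i = I j then 1 else 0

lemma selM3_inj {r : ℕ} (I : Fin r → Fin 3) (hI : Function.Injective I) (x : Fin r → ℂ) (hx : (selM3 I).mulVec x = 0) :
    x = 0 := by
  funext j
  have h1 := congrFun hx (I j)
  rw [Matrix.mulVec, dotProduct, Finset.sum_eq_single j] at h1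
  · simpa [selM3] using h1
  · intro l _ hl
    rw [selM3, Matrix.of_apply, if_neg fun h => hl (hI h).symm, zero_mul]
  · intro h; exact absurd (Finset.mem_univ _) h

lemma Phi3_selM {r : ℕ} (I : Fin r → Fin 3) (i : Fin 3) (j : Fin r) :
    (Phi3 dI S.f * (selM3 I).map (algebraMap ℂ (RD dI))) i j = solv3 dI (S.f (I j)) i := by
  have h2 : (Phi3 dI S.f * (selM3 I).map (algebraMap ℂ (RD dI))) i j =
      ∑ x, solv3 dI (S.f x) i * algebraMap ℂ RR (if x = I j then 1 else 0) := rfl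
  rw [h2, Finset.sum_eq_single (I j), if_pos rfl, map_one, mul_one]
  · intro x _ hx
    rw [if_neg hx, map_zero, mul_zero]
  · intro h; exact absurd (Finset.mem_univ _) h

include S in
theorem SolInf3.irr (ht : 0 < t) (hS : S_STAR) (hW : S_W) (hIA : S_IA) (hIB : S_IB) (hIC : S_IC) (hK : S_KAP3)
    (W : Submodule FF (Fin 3 → FF)) (hst : ∀ w ∈ W, thF ∘ w - (AF3 t).mulVec w ∈ W) : W = ⊥ ∨ W = ⊤ := by
  classical
  obtain ⟨Ψ, hΨ⟩ := S.exists_inv ht hS hW
  have htC : (t : ℂ) ≠ 0 := by exact_mod_cast ht.ne'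
  obtain ⟨r, hr, w, B, hw1, hwB, hB0⟩ : ∃ r, r = Module.finrank FF W ∧
      ∃ (w : Matrix (Fin 3) (Fin r) ℂ[X]) (B : Matrix (Fin r) (Fin r) ℂ[X]),
        (∀ c : Fin r → FF, (w.map (algebraMap ℂ[X] FF)).mulVec c = 0 → c = 0) ∧
        w.map (fun p => X * derivative p) - AP3 t * w = w * B ∧ B.trace.eval 0 = 0 := by
    obtain ⟨w, B, hw1, -, hwB, hB0⟩ := hIB 3 (AP3 t) (AP3_nil t) W hst
    exact ⟨_, rfl, w, B, hw1, hwB, hB0⟩
  have hr3 : r ≤ 3 := by
    have := Submodule.finrank_le W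
    rwa [Module.finrank_fin_fun, ← hr] at this
  by_cases hr0 : r = 0
  · left
    exact Submodule.finrank_eq_zero.1 (hr.symm.trans hr0)
  by_cases hr3' : r = 3
  · right
    apply Submodule.eq_top_of_finrank_eq
    rw [Module.finrank_fin_fun, ← hr, hr3']
  exfalso
  have hconn := conn3_map t w B hwB
  obtain ⟨G, hGr, hGE, hGH⟩ := hIA hS FF (RD dI) thF (thD dI) (thD_emb dI) (thD_simple dI) 3 (AF3 t) (Phi3 dI S.f) Ψ hΨ
    (Phi3_eq dI t S.f S.eq_f) r _ _ hw1 hconn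
  obtain ⟨⟨κ0, hk00, hk01⟩, κ1, hk10, hk11⟩ := hK
  obtain ⟨J, hJ, hJc⟩ := coord3 G
    (by
      intro c hc
      have h := hGE (cw 0 (chi κ0)) (Matrix.single 0 0 (t : ℂ)) (cw_emb dI 0 (chi κ0) (chi_g₀ κ0)) (delta30 S κ0 hk00 hk01) c hc
      rw [single3_mulVec'] at h
      have := G.smul_mem (t : ℂ)⁻¹ h
      rwa [← Pi.single_smul, smul_eq_mul, inv_mul_cancel_left₀ htC] at this)
    (by
      intro c hc
      have h := hGE (cw 0 (chi κ1)) (Matrix.single 1 1 (t : ℂ)) (cw_emb dI 0 (chi κ1) (chi_g₀ κ1)) (delta31 S κ1 hk10 hk11) c hc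
      rw [single3_mulVec'] at h
      have := G.smul_mem (t : ℂ)⁻¹ h
      rwa [← Pi.single_smul, smul_eq_mul, inv_mul_cancel_left₀ htC] at this)
  rw [hGr] at hJc
  have hIinj : Function.Injective (J.orderEmbOfFin hJc) := (J.orderEmbOfFin hJc).injective
  obtain ⟨H, hH1, hH2, hH3⟩ : ∃ H : Matrix (Fin r) (Fin r) RR,
      (∀ i j, solv3 dI (S.f (J.orderEmbOfFin hJc j)) i = ∑ k, dI.emb (algebraMap ℂ[X] FF (w i k)) * H k j) ∧ H.det ≠ 0 ∧
        dI.th H.det = - dI.emb (Matrix.trace (B.map (algebraMap ℂ[X] FF))) * H.det := by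
    obtain ⟨H, hH1, hH2, hH3⟩ := hGH (selM3 (J.orderEmbOfFin hJc))
      (by
        intro j
        have h1 := hJ (J.orderEmbOfFin hJc j) (Finset.orderEmbOfFin_mem J hJc j)
        convert h1 using 1
        funext i
        rw [Matrix.transpose_apply, selM3, Matrix.of_apply, Pi.single_apply])
      (selM3_inj _ hIinj)
    refine ⟨H, fun i j => ?_, hH2, hH3⟩
    have h1 := congrFun (congrFun hH1 i) j
    rw [Phi3_selM] at h1
    exact h1
  -- the minor
  have hminor := hIC 3 r hr3 FF (resZ thF) (AF3 t) (by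
    intro i j hij
    fin_cases i <;> fin_cases j <;> simp [AF3, AP3] at hij ⊢) _ _ hw1 hconn
  have hρ' : (Matrix.of fun i j : Fin r => w.map (algebraMap ℂ[X] FF) (Fin.castLE hr3 i) j).det =
      algebraMap ℂ[X] FF (Matrix.of fun i j : Fin r => w (Fin.castLE hr3 i) j).det := by
    rw [RingHom.map_det]
    rfl
  refine irr3_finish S r (by omega) (by omega) hr3 (fun j => J.orderEmbOfFin hJc j) w H B.trace hB0 ?_ ?_ hH2 ?_
  · intro h
    rw [hρ', h, map_zero] at hminor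
    exact hminor rfl
  · intro i j
    rw [hH1]
    refine Finset.sum_congr rfl fun k _ => ?_
    rw [dI.emb_poly]
  · rw [hH3]
    congr 2
    have h2 : Matrix.trace (B.map (algebraMap ℂ[X] FF)) = algebraMap ℂ[X] FF B.trace := by
      rw [Matrix.trace, Matrix.trace, map_sum]
      rfl
    rw [h2, dI.emb_poly]

end Pool.Agent.E8helper52.AZ3
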