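import Mathlib
import Pool.Agent.E8helper42.AZ.Zer
import Pool.Agent.E8helper52.AZ3.Irr3

/-!
# Project AZ, `ζ(2)`: the solutions at zero and the final statement
-/

set_option autoImplicit false

namespace Pool.Agent.E8helper52.AZ3

open Polynomial Pool.Agent.E8helper42.AZ

lemma li5 : LinearIndependent ℚ ![(-11 + 5 * √5) / 2, (-11 - 5 * √5) / 2] := by
  rw [LinearIndependent.pair_iff]
  intro s t h
  have h1 : (-(11 / 2) * ((s : ℝ) + t)) + (5 / 2 * ((s : ℝ) - t)) * √5 = 0 := by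
    rw [Rat.smul_def, Rat.smul_def] at h
    linarith
  have h2 : s - t = 0 := by
    by_contra h3
    have h4 : √5 = ((11 * (s + t) / (5 * (s - t)) : ℚ) : ℝ) := by
      have h5 : ((s - t : ℚ) : ℝ) ≠ 0 := by exact_mod_cast h3
      push_cast at h5 ⊢
      rw [eq_div_iff (mul_ne_zero (by norm_num) h5)]
      linarith
    have h6 : Irrational √5 := by
      have := Nat.Prime.irrational_sqrt (p := 5) (by norm_num)
      exact_mod_cast this
    exact h6 ⟨_, h4.symm⟩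
  have h3 : ((s : ℝ) - t) = 0 := by exact_mod_cast h2
  rw [h3, mul_zero, zero_mul, add_zero] at h1
  have h4 : s + t = 0 := by
    have : ((s : ℝ) + t) = 0 := by linarith
    exact_mod_cast this
  constructor <;> linarith

theorem kap3 : S_KAP3 := by
  have key : ∀ f : Fin 2 → ℚ, ∃ κ : ℝ →ₗ[ℚ] ℚ, κ ((-11 + 5 * √5) / 2) = f 0 ∧ κ ((-11 - 5 * √5) / 2) = f 1 := by
    intro f
    let b := Module.Basis.span li5
    obtain ⟨κ, hκ⟩ := LinearMap.exists_extend (b.constr ℚ f)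
    have h : ∀ i, κ (![(-11 + 5 * √5) / 2, (-11 - 5 * √5) / 2] i) = f i := by
      intro i
      have h1 : κ (b i : ℝ) = b.constr ℚ f (b i) := LinearMap.congr_fun hκ (b i)
      have h2 : (b i : ℝ) = ![(-11 + 5 * √5) / 2, (-11 - 5 * √5) / 2] i := congrArg Subtype.val (Module.Basis.span_apply li5 i)
      rw [h2, b.constr_basis] at h1
      exact h1
    exact ⟨κ, h 0, h 1⟩
  exact ⟨key ![1, 0], key ![0, 1]⟩

/-- a fundamental system of solutions at zero -/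
structure SolZero3 (t : ℚ) where
  y0 : RR
  y1 : RR
  y2 : RR
  eq0 : Lop3 d0 t y0 = 0
  eq1 : Lop3 d0 t y1 = 0
  eq2 : Lop3 d0 t y2 = 0
  k0 : y0.coeff (E8helper42.AZ.mk 0 0) = C (1 / 2) * X ^ 2
  k1 : y1.coeff (E8helper42.AZ.mk 0 0) = X
  k2 : y2.coeff (E8helper42.AZ.mk 0 0) = 1
  d0 : cw 1 0 y0 = y1
  d1 : cw 1 0 y1 = y2
  d2 : cw 1 0 y2 = 0

theorem exists_solZero3 (t : ℚ) : Nonempty (SolZero3 t) := by
  obtain ⟨⟨b, hb, hb0, hbL⟩, huniq⟩ := s_ZERO3 t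
  have c1 := cw_el' hb hb.deriv
  have c2 := cw_el' hb.deriv hb.deriv.deriv
  have c3 := cw_el' hb.deriv.deriv hb.deriv.deriv.deriv
  have L1 : Lop3 E8helper42.AZ.d0 t (el 0 0 _ hb.deriv) = 0 := by rw [← c1, cw_Lop3 E8helper42.AZ.d0 1 0 rfl, hbL, map_zero]
  have L2 : Lop3 E8helper42.AZ.d0 t (el 0 0 _ hb.deriv.deriv) = 0 := by rw [← c2, cw_Lop3 E8helper42.AZ.d0 1 0 rfl, L1, map_zero]
  have L3 : Lop3 E8helper42.AZ.d0 t (el 0 0 _ hb.deriv.deriv.deriv) = 0 := by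
    rw [← c3, cw_Lop3 E8helper42.AZ.d0 1 0 rfl, L2, map_zero]
  have e1 : derivative (b 0) = X := by
    rw [hb0, derivative_mul, derivative_C, zero_mul, zero_add, derivative_X_pow, ← mul_assoc, ← C_mul]
    norm_num
  have h3 := huniq _ hb.deriv.deriv.deriv (by
    show derivative (derivative (derivative (b 0))) = 0
    rw [e1]; simp) L3
  refine ⟨⟨el 0 0 _ hb, el 0 0 _ hb.deriv, el 0 0 _ hb.deriv.deriv, hbL, L1, L2,
    ?_, ?_, ?_, c1, c2, by rw [c3, h3]⟩⟩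
  · rw [el_coeff, p1_mk, if_pos rfl, p2_mk, hb0]
  · rw [el_coeff, p1_mk, if_pos rfl, p2_mk, e1]
  · rw [el_coeff, p1_mk, if_pos rfl, p2_mk, e1, derivative_X]

section
variable {t : ℚ} (S : SolZero3 t)

/-- the solutions as a family -/
noncomputable def SolZero3.f : Fin 3 → RR := ![S.y0, S.y1, S.y2]

lemma SolZero3.eq_f (j : Fin 3) : Lop3 E8helper42.AZ.d0 t (S.f j) = 0 := by
  fin_cases j
  · exact S.eq0
  · exact S.eq1
  · exact S.eq2

lemma SolZero3.combination_zero (c : Fin 3 → ℂ) (h : ∑ j, algebraMap ℂ RR (c j) * S.f j = 0) : c = 0 := by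
  have hc : C (c 0) * S.y0.coeff (E8helper42.AZ.mk 0 0) + C (c 1) * S.y1.coeff (E8helper42.AZ.mk 0 0) +
      C (c 2) * S.y2.coeff (E8helper42.AZ.mk 0 0) = 0 := by
    have := congrArg (fun u : RR => u.coeff (E8helper42.AZ.mk 0 0)) h
    simp only [Fin.sum_univ_three, HahnSeries.coeff_add, amul_coeff, HahnSeries.coeff_zero] at this
    exact this
  rw [S.k0, S.k1, S.k2] at hc
  have h0 := congrArg (fun p => p.coeff 0) hc
  have h1 := congrArg (fun p => p.coeff 1) hc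
  have h2 := congrArg (fun p => p.coeff 2) hc
  simp [coeff_X, coeff_C_mul, coeff_X_pow] at h0 h1 h2
  funext j
  fin_cases j
  · exact h2
  · exact h1
  · exact h0

theorem SolZero3.exists_inv (hS : S_STAR) (hW : S_W) : ∃ Ψ, Phi3 E8helper42.AZ.d0 S.f * Ψ = 1 := by
  refine hW hS (RD E8helper42.AZ.d0) (thD E8helper42.AZ.d0) (thD_simple E8helper42.AZ.d0) 3 _ (Phi3 E8helper42.AZ.d0 S.f)
    (Phi3_eq E8helper42.AZ.d0 t S.f S.eq_f) ?_
  intro c hc
  apply S.combination_zero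
  have := congrFun hc 0
  rw [Matrix.mulVec, dotProduct, Pi.zero_apply] at this
  refine Eq.trans ?_ this
  refine Finset.sum_congr rfl fun j _ => ?_
  exact mul_comm (algebraMap ℂ RR (c j)) (S.f j)

/-- the shift -/
def shE3 : Matrix (Fin 3) (Fin 3) ℂ := !![0, 0, 0; 1, 0, 0; 0, 1, 0]

lemma shE3_3 : shE3 ^ 3 = 0 := by
  ext i j
  fin_cases i <;> fin_cases j <;> simp [shE3, pow_succ, Matrix.mul_apply, Fin.sum_univ_three]

lemma shE3_2 : shE3 ^ 2 ≠ 0 := by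
  intro h
  have := congrFun (congrFun h 2) 0
  simp [shE3, pow_succ, Matrix.mul_apply, Fin.sum_univ_three] at this

lemma SolZero3.delta : (Phi3 E8helper42.AZ.d0 S.f).map (cwD E8helper42.AZ.d0 1 0) =
      Phi3 E8helper42.AZ.d0 S.f * shE3.map (algebraMap ℂ (RD E8helper42.AZ.d0)) := by
  refine Matrix.ext fun k l => ?_
  have h2 : (Phi3 E8helper42.AZ.d0 S.f).map (cwD E8helper42.AZ.d0 1 0) k l = cw 1 0 (solv3 E8helper42.AZ.d0 (S.f l) k) := rfl
  have h3 : (Phi3 E8helper42.AZ.d0 S.f * shE3.map (algebraMap ℂ (RD E8helper42.AZ.d0))) k l =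
    ∑ x, solv3 E8helper42.AZ.d0 (S.f x) k * algebraMap ℂ RR (shE3 x l) := rfl
  rw [h2, h3, cw_solv3 E8helper42.AZ.d0 1 0 rfl, Fin.sum_univ_three]
  fin_cases l
  · show solv3 E8helper42.AZ.d0 (cw 1 0 S.y0) k = _
    rw [S.d0]
    simp [shE3, SolZero3.f]
  · show solv3 E8helper42.AZ.d0 (cw 1 0 S.y1) k = _
    rw [S.d1]
    simp [shE3, SolZero3.f]
  · show solv3 E8helper42.AZ.d0 (cw 1 0 S.y2) k = _
    rw [S.d2]
    simp [shE3, SolZero3.f, solv3_zero]

lemma SolZero3.nil (Ψ : Matrix (Fin 3) (Fin 3) (RD E8helper42.AZ.d0)) (h : Phi3 E8helper42.AZ.d0 S.f * Ψ = 1) :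
    ((Phi3 E8helper42.AZ.d0 S.f).map (cwD E8helper42.AZ.d0 1 0) * Ψ) ^ 3 = 0 ∧
    ((Phi3 E8helper42.AZ.d0 S.f).map (cwD E8helper42.AZ.d0 1 0) * Ψ) ^ 2 ≠ 0 := by
  have h' : Ψ * Phi3 E8helper42.AZ.d0 S.f = 1 := mul_eq_one_comm.1 h
  have hinj : Function.Injective (algebraMap ℂ (RD E8helper42.AZ.d0)) := (algebraMap ℂ (RD E8helper42.AZ.d0)).injective
  rw [S.delta, conj_pow _ _ _ h, conj_pow _ _ _ h, ← Matrix.map_pow, ← Matrix.map_pow, shE3_3]
  constructor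
  · rw [Matrix.map_zero _ (map_zero _), mul_zero, zero_mul]
  · intro h1
    apply shE3_2
    have h2 : (shE3 ^ 2).map (algebraMap ℂ (RD E8helper42.AZ.d0)) = 0 := by
      calc (shE3 ^ 2).map (algebraMap ℂ (RD E8helper42.AZ.d0)) =
            (Ψ * Phi3 E8helper42.AZ.d0 S.f) * (shE3 ^ 2).map (algebraMap ℂ (RD E8helper42.AZ.d0)) *
              (Ψ * Phi3 E8helper42.AZ.d0 S.f) := by
            rw [h', one_mul, mul_one]
        _ = Ψ * (Phi3 E8helper42.AZ.d0 S.f * (shE3 ^ 2).map (algebraMap ℂ (RD E8helper42.AZ.d0)) * Ψ) *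
              Phi3 E8helper42.AZ.d0 S.f := by simp only [mul_assoc]
        _ = 0 := by rw [h1, mul_zero, zero_mul]
    refine Matrix.ext fun i j => ?_
    apply hinj
    have h3 := congrFun (congrFun h2 i) j
    rw [Matrix.map_apply] at h3
    rw [h3]
    exact (map_zero (algebraMap ℂ (RD E8helper42.AZ.d0))).symm

end

theorem t_P3 : S_P3 := by
  intro hS hW hIA hIB hIC t ht
  obtain ⟨SI⟩ := exists_solInf3 t ht
  obtain ⟨SZ⟩ := exists_solZero3 t
  refine ⟨fun W hst => SI.irr ht hS hW hIA hIB hIC kap3 W hst, SI.noSol ht hS hW, ?_, ?_⟩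
  · obtain ⟨Ψ, hΨ⟩ := SZ.exists_inv hS hW
    refine ⟨Phi3 d0 SZ.f, Ψ, hΨ, Phi3_eq d0 t SZ.f SZ.eq_f, ?_⟩
    intro δ hδ
    have h := SZ.nil Ψ hΨ
    have e : δ = cwD d0 1 0 := hδ
    rw [e]
    exact h
  · intro κ hκ0 hκ1 χ hχ
    have hχ' : χ = chi κ := by
      ext g
      rw [hχ g, chi_apply]
    subst hχ'
    obtain ⟨Ψ, hΨ⟩ := SI.exists_inv ht hS hW
    refine ⟨Phi3 dI SI.f, Ψ, solv3 dI SI.bh, hΨ, Phi3_eq dI t SI.f SI.eq_f, ?_, ?_⟩
    · exact solv3_eq dI t (-5 * t) SI.bh SI.eq_b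
    · intro δ hδ
      subst hδ
      constructor
      · have := delta30 SI κ hκ0 hκ1
        refine this.trans ?_
        congr 1
        exact Matrix.map_single _ _ _ _
      · funext c
        show cw 0 (chi κ) (solv3 dI SI.bh c) = 0
        rw [cw_solv3 dI 0 (chi κ) (chi_g₀ κ), SI.cb, solv3_zero]

end Pool.Agent.E8helper52.AZ3
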