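import Mathlib
import Pool.Agent.E8helper42.AZ.Stm5
import Pool.Agent.E8helper52.AZ3.P3

/-!
# Project AZ, `ζ(2)`: the statement with all linear functionals
-/

set_option autoImplicit false

namespace Pool.Agent.E8helper52.AZ3

open Polynomial Pool.Agent.E8helper42.AZ

lemma delta3_all {t : ℚ} (S : SolInf3 t) (κ : ℝ →ₗ[ℚ] ℚ) :
    (Phi3 dI S.f).map (cw 0 (chi κ) : Derivation ℂ (RD dI) (RD dI)) =
      Phi3 dI S.f * (Matrix.diagonal ![((t * κ ((-11 + 5 * √5) / 2) : ℚ) : ℂ), ((t * κ ((-11 - 5 * √5) / 2) : ℚ) : ℂ),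
        0]).map (algebraMap ℂ (RD dI)) := by
  refine Matrix.ext fun k l => ?_
  have h1 : (Phi3 dI S.f * (Matrix.diagonal ![((t * κ ((-11 + 5 * √5) / 2) : ℚ) : ℂ),
      ((t * κ ((-11 - 5 * √5) / 2) : ℚ) : ℂ), 0]).map (algebraMap ℂ (RD dI))) k l =
      ∑ x, solv3 dI (S.f x) k * algebraMap ℂ RR (Matrix.diagonal ![((t * κ ((-11 + 5 * √5) / 2) : ℚ) : ℂ),
        ((t * κ ((-11 - 5 * √5) / 2) : ℚ) : ℂ), 0] x l) := rfl
  have h2 : (Phi3 dI S.f).map (cw 0 (chi κ) : Derivation ℂ (RD dI) (RD dI)) k l =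
      cw 0 (chi κ) (solv3 dI (S.f l) k) := rfl
  rw [h1, h2, cw_solv3 dI 0 (chi κ) (chi_g₀ κ), Finset.sum_eq_single l]
  · rw [Matrix.diagonal_apply_eq]
    fin_cases l
    · show solv3 dI (cw 0 (chi κ) S.f0) k = _
      rw [S.c0, solv3_smul, smul_def', mul_comm]
      rfl
    · show solv3 dI (cw 0 (chi κ) S.f1) k = _
      rw [S.c1, solv3_smul, smul_def', mul_comm]
      rfl
    · show solv3 dI (cw 0 (chi κ) S.f2) k = _
      rw [S.c2, solv3_zero]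
      show (0 : RR) = solv3 dI S.f2 k * algebraMap ℂ RR 0
      rw [map_zero, mul_zero]
  · intro x _ hx
    rw [Matrix.diagonal_apply_ne _ hx, map_zero, mul_zero]
  · intro h; exact absurd (Finset.mem_univ _) h

theorem t_P3G : S_P3G := by
  intro hS hW hIA hIB hIC _ t ht
  obtain ⟨h1, h2, h3, -⟩ := t_P3 hS hW hIA hIB hIC t ht
  refine ⟨h1, h2, h3, ?_⟩
  obtain ⟨SI⟩ := exists_solInf3 t ht
  obtain ⟨Ψ, hΨ⟩ := SI.exists_inv ht hS hW
  refine ⟨Phi3 dI SI.f, Ψ, solv3 dI SI.bh, hΨ, Phi3_eq dI t SI.f SI.eq_f,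
    solv3_eq dI t (-5 * t) SI.bh SI.eq_b, ?_⟩
  intro κ χ hχ δ hδ
  have hχ' : χ = chi κ := by
    ext g
    rw [hχ g, chi_apply]
  subst hχ'
  subst hδ
  refine ⟨delta3_all SI κ, ?_⟩
  funext c
  show cw 0 (chi κ) (solv3 dI SI.bh c) = 0
  rw [cw_solv3 dI 0 (chi κ) (chi_g₀ κ), SI.cb, solv3_zero]

end Pool.Agent.E8helper52.AZ3
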